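import Pool.Agent.Work.MP_495a89_nt.Assemble

/-!
# MP_495a89_nt: bounds for the multiplier of multiperfect numbers

`result` bounds `σ(n) / n = a / b` if, for the primes `p > P` dividing `n`, the number `v_p(n) + 1`
has a small prime factor, and the primes `r > R` with an exponent `v_r(n) > A r ^ K` do not
contribute too much to `∑ 1 / r`. Two consequences for `k`-fold perfect numbers are proved below:
`k ≤ C L log R` if `v_p(n) ≤ L` for all primes `p > R`, where `L` may be replaced by
`(log p) ^ θ / (1 + log R) - 1` (`bounded_exponents`), and a lower bound for the sum of `1 / r` over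
the primes with `v_r(n) > r ^ K` if every `v_p(n) + 1` has a prime factor `≤ L`
(`large_exponents`).
-/

set_option autoImplicit false

namespace Pool.Agent.Results.MP_495a89_nt.MultiplierBound

open Finset

open Classical in
/-- the sum of `1 / r` over the prime factors `r` of `n` with `r > R`, `r ≡ 1` modulo `l` and
`v_r(n) > A r ^ K` -/
noncomputable def heavy (n K l : ℕ) (A R : ℝ) : ℝ :=
  ∑ r ∈ n.primeFactors.filter
    (fun r : ℕ => R < r ∧ r % l = 1 ∧ A * (r : ℝ) ^ K < n.factorization r), 1 / (r : ℝ)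

theorem result (K : ℕ) (θ : ℝ) (hθ0 : 0 ≤ θ) (hθ1 : θ < 1) :
    ∃ C : ℝ, ∀ (n a b : ℕ) (A L R P h : ℝ), n ≠ 0 → b ≠ 0 →
      ArithmeticFunction.sigma 1 n * b = a * n → 1 ≤ A → 1 ≤ L → 1 ≤ R → 1 ≤ P → 0 ≤ h →
      (∀ p : ℕ, p.Prime → p ∣ n → P < p → ∃ l : ℕ, l.Prime ∧ l ∣ n.factorization p + 1 ∧
        ((l : ℝ) - 1) * heavy n K l A R ≤ h ∧
        ((l : ℝ) ≤ L ∨ Real.exp h * (1 + Real.log R) * l ≤ Real.log p ^ θ)) →
      (a : ℝ) / b ≤ C * (Real.exp h * (1 + Real.log R) * L + Real.log A + Real.log P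
          + Real.log (1 + Real.log a)) ∧
        (b = 1 → (a : ℝ) ≤ C * (Real.exp h * (1 + Real.log R) * L + Real.log A + Real.log P)) := by
  obtain ⟨C, hC⟩ := Pool.Agent.Work.MP_495a89_nt.main2 K θ hθ0 hθ1
  refine ⟨C, fun n a b A L R P h hn hb hs hA hL hR hP hh hp => ?_⟩
  refine hC n a b A L R P h hn hb hs hA hL hR hP hh fun p hp1 hp2 hp3 => ?_
  obtain ⟨l, hl1, hl2, hl3, hl4⟩ := hp p hp1 hp2 hp3
  refine ⟨l, hl1, hl2, ?_, hl4⟩
  have e : (Pool.Agent.Work.MP_495a89_nt.HU n K A R).filter (fun r => r % l = 1) =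
      n.primeFactors.filter
        (fun r : ℕ => R < r ∧ r % l = 1 ∧ A * (r : ℝ) ^ K < n.factorization r) := by
    ext r
    simp only [Pool.Agent.Work.MP_495a89_nt.HU, mem_filter]
    tauto
  rw [e]
  exact hl3

/-- If `n` is `k`-fold perfect and `v_p(n) ≤ L` or `(1 + log R) (v_p(n) + 1) ≤ (log p) ^ θ` for every
prime `p > R` then `k ≤ C L log R`. -/
theorem bounded_exponents (θ : ℝ) (hθ0 : 0 ≤ θ) (hθ1 : θ < 1) :
    ∃ C : ℝ, ∀ (n k : ℕ) (L R : ℝ), n ≠ 0 →
    ArithmeticFunction.sigma 1 n = k * n → 1 ≤ L → 2 ≤ R →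
    (∀ p : ℕ, p.Prime → R < p → (n.factorization p : ℝ) ≤ L ∨
      (1 + Real.log R) * ((n.factorization p : ℝ) + 1) ≤ Real.log p ^ θ) →
    (k : ℝ) ≤ C * (L * Real.log R) := by
  obtain ⟨C, hC⟩ := result 1 θ hθ0 hθ1
  refine ⟨8 * |C|, fun n k L R hn hk hL hR hv => ?_⟩
  have hlogR : 0.69 ≤ Real.log R := by
    have := Real.log_le_log (by norm_num : (0 : ℝ) < 2) hR
    linarith [Real.log_two_gt_d9]
  have h1 := (hC n k 1 L (L + 1) R R 0 hn one_ne_zero (by rw [mul_one, hk]) hL (by linarith)
    (by linarith) (by linarith) le_rfl ?_).2 rfl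
  · have hlogL : Real.log L ≤ L - 1 := Real.log_le_sub_one_of_pos (by linarith)
    have hlogL0 : 0 ≤ Real.log L := Real.log_nonneg hL
    rw [Real.exp_zero, one_mul] at h1
    have h2 : (1 + Real.log R) * (L + 1) + Real.log L + Real.log R ≤ 8 * (L * Real.log R) := by
      nlinarith
    have h3 : 0 ≤ (1 + Real.log R) * (L + 1) + Real.log L + Real.log R := by positivity
    calc (k : ℝ) ≤ C * ((1 + Real.log R) * (L + 1) + Real.log L + Real.log R) := h1
      _ ≤ |C| * ((1 + Real.log R) * (L + 1) + Real.log L + Real.log R) :=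
          mul_le_mul_of_nonneg_right (le_abs_self C) h3
      _ ≤ |C| * (8 * (L * Real.log R)) := mul_le_mul_of_nonneg_left h2 (abs_nonneg C)
      _ = 8 * |C| * (L * Real.log R) := by ring
  · intro p hp hpn hRp
    have h2 : n.factorization p + 1 ≠ 1 := by
      have := (hp.dvd_iff_one_le_factorization hn).1 hpn
      omega
    have h3 : (n.factorization p + 1).minFac ≤ n.factorization p + 1 :=
      Nat.minFac_le (Nat.succ_pos _)
    have h4 : ((n.factorization p + 1).minFac : ℝ) ≤ (n.factorization p : ℝ) + 1 := by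
      exact_mod_cast h3
    refine ⟨(n.factorization p + 1).minFac, Nat.minFac_prime h2, Nat.minFac_dvd _, ?_, ?_⟩
    · have e : heavy n 1 (n.factorization p + 1).minFac L R = 0 := by
        unfold heavy
        rw [filter_false_of_mem, sum_empty]
        rintro r hr ⟨h5, -, h6⟩
        have hr' := Nat.prime_of_mem_primeFactors hr
        have hr2 : (2 : ℝ) ≤ r := by exact_mod_cast hr'.two_le
        rw [pow_one] at h6
        rcases hv r hr' h5 with h7 | h7
        · nlinarith
        · have h8 : Real.log r ^ θ ≤ r := by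
            have e1 : Real.log r ≤ r := (Real.log_le_sub_one_of_pos (by linarith)).trans
              (by linarith)
            calc Real.log r ^ θ ≤ (r : ℝ) ^ θ :=
                  Real.rpow_le_rpow (Real.log_nonneg (by linarith)) e1 hθ0
              _ ≤ (r : ℝ) ^ (1 : ℝ) :=
                  Real.rpow_le_rpow_of_exponent_le (by linarith) hθ1.le
              _ = r := Real.rpow_one _
          have h9 : (0 : ℝ) ≤ n.factorization r := Nat.cast_nonneg _
          nlinarith
      rw [e, mul_zero]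
    · rcases hv p hp hRp with h5 | h5
      · left
        linarith
      · right
        rw [Real.exp_zero, one_mul]
        refine le_trans ?_ h5
        exact mul_le_mul_of_nonneg_left h4 (by linarith)

open Classical in
/-- If `n` is `k`-fold perfect and every `v_p(n) + 1`, `p ∣ n`, has a prime factor `≤ L`, then
`(L - 1) ∑ 1 / r ≥ log (k / L) - C`, the sum over the primes with `v_r(n) > r ^ K`. -/
theorem large_exponents (K : ℕ) : ∃ C : ℝ, ∀ (n k : ℕ) (L : ℝ), n ≠ 0 →
    ArithmeticFunction.sigma 1 n = k * n → 2 ≤ L →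
    (∀ p : ℕ, p.Prime → p ∣ n → ∃ l : ℕ, l.Prime ∧ (l : ℝ) ≤ L ∧ l ∣ n.factorization p + 1) →
    Real.log k ≤ C + Real.log L + (L - 1) *
      ∑ r ∈ n.primeFactors.filter (fun r => r ^ K < n.factorization r), 1 / (r : ℝ) := by
  obtain ⟨C, hC⟩ := result K 0 le_rfl zero_lt_one
  refine ⟨Real.log (|C| + 1), fun n k L hn hk hL hv => ?_⟩
  set S : ℝ := ∑ r ∈ n.primeFactors.filter (fun r => r ^ K < n.factorization r), 1 / (r : ℝ)
    with hS
  have hS0 : 0 ≤ S := sum_nonneg fun r _ => by positivity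
  have hk0 : k ≠ 0 := by
    rintro rfl
    rw [zero_mul] at hk
    have : 0 < ArithmeticFunction.sigma 1 n :=
      ArithmeticFunction.sigma_pos_iff.2 (Nat.pos_of_ne_zero hn)
    omega
  have hk1 : (0 : ℝ) < k := by exact_mod_cast Nat.pos_of_ne_zero hk0
  have h1 := (hC n k 1 1 L 1 1 ((L - 1) * S) hn one_ne_zero (by rw [mul_one, hk]) le_rfl
    (by linarith) le_rfl le_rfl (mul_nonneg (by linarith) hS0) ?_).2 rfl
  · simp only [Real.log_one, add_zero, mul_one] at h1
    have h2 : (k : ℝ) ≤ (|C| + 1) * (Real.exp ((L - 1) * S) * L) := by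
      refine h1.trans (mul_le_mul_of_nonneg_right ?_ (by positivity))
      linarith [le_abs_self C]
    have h3 := Real.log_le_log hk1 h2
    have hC1 : 0 < |C| + 1 := by positivity
    rw [Real.log_mul hC1.ne' (by positivity), Real.log_mul (Real.exp_pos _).ne' (by linarith),
      Real.log_exp] at h3
    linarith
  · intro p hp hpn _
    obtain ⟨l, hl1, hl2, hl3⟩ := hv p hp hpn
    refine ⟨l, hl1, hl3, ?_, Or.inl hl2⟩
    have h2 : heavy n K l 1 1 ≤ S := by
      unfold heavy
      rw [hS]
      refine sum_le_sum_of_subset_of_nonneg ?_ fun r _ _ => by positivity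
      intro r hr
      simp only [mem_filter] at hr ⊢
      refine ⟨hr.1, ?_⟩
      have h3 := hr.2.2.2
      rw [one_mul] at h3
      exact_mod_cast h3
    have h4 : (1 : ℝ) ≤ l := by exact_mod_cast hl1.one_lt.le
    have h5 : 0 ≤ heavy n K l 1 1 := by
      unfold heavy
      exact sum_nonneg fun r _ => by positivity
    calc ((l : ℝ) - 1) * heavy n K l 1 1 ≤ (L - 1) * heavy n K l 1 1 := by
          apply mul_le_mul_of_nonneg_right _ h5
          linarith
      _ ≤ (L - 1) * S := by
          apply mul_le_mul_of_nonneg_left h2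
          linarith

end Pool.Agent.Results.MP_495a89_nt.MultiplierBound
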