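import Mathlib
import Pool.Agent.Work.MP_495a89_nm.Final

/-!
MP_495a89_nt (the multiplier of multiperfect numbers).

Near multiperfect numbers of maximal order.  For every `ε > 0` and all `L`, `N` there are `n ≥ N`
and a prime `q` with `q ∣ n`, `q ^ 2 ∤ n`, `q ^ L ≤ n` such that `n / q` divides `σ(n)` (so `σ(n) / n`
is an integer up to the one prime `q ≤ n ^ (1 / L)` in the denominator) and
`σ(n) ≥ (1 - ε) e ^ γ n log log n` (the maximal order of `σ(n)`).
-/

set_option autoImplicit false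

namespace Pool.Agent.Results.MP_495a89_nt.NearMultiperfect

theorem result :
    ∀ ε : ℝ, 0 < ε → ∀ L N : ℕ, ∃ n q : ℕ, N ≤ n ∧ q.Prime ∧ q ∣ n ∧ ¬ q ^ 2 ∣ n ∧ q ^ L ≤ n ∧
      n / q ∣ ∑ d ∈ n.divisors, d ∧
      (1 - ε) * Real.exp Real.eulerMascheroniConstant * n * Real.log (Real.log n) ≤
        ∑ d ∈ n.divisors, (d : ℝ) :=
  Pool.Agent.Work.MP_495a89_nm.main

end Pool.Agent.Results.MP_495a89_nt.NearMultiperfect
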