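import Mathlib
import Pool.Agent.Work.MP_495a89_gro.Final

/-!
MP_495a89_nt (the multiplier of multiperfect numbers).

A second order form of Gronwall's theorem.  As `n → ∞`,
`σ(n)/n ≤ e^γ (log log n + log (1 - log gcd(n,σ(n)) / (2 log n)) + o(1))`.
For a `k`-fold perfect number: `k ≤ e^γ (log log n - log 2 + o(1))`, that is
`log n ≥ (2 - o(1)) exp (e^(-γ) k)` (theorem `multiperfect`).
-/

set_option autoImplicit false

namespace Pool.Agent.Results.MP_495a89_nt.SecondOrderGronwall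

theorem result : ∀ ε : ℝ, 0 < ε → ∃ N : ℕ, ∀ n : ℕ, N ≤ n →
    (∑ d ∈ n.divisors, (d : ℝ)) / n ≤ Real.exp Real.eulerMascheroniConstant *
      (Real.log (Real.log n) +
        Real.log (1 - Real.log (n.gcd (∑ d ∈ n.divisors, d)) / (2 * Real.log n)) + ε) :=
  Pool.GRO.res

/-- The case of `k`-fold perfect numbers. -/
theorem multiperfect : ∀ ε : ℝ, 0 < ε → ∃ N : ℕ, ∀ n k : ℕ, N ≤ n →
    ∑ d ∈ n.divisors, d = k * n →
    (k : ℝ) ≤ Real.exp Real.eulerMascheroniConstant *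
      (Real.log (Real.log n) - Real.log 2 + ε) ∧
    (2 - ε) * Real.exp (Real.exp (-Real.eulerMascheroniConstant) * k) ≤ Real.log n :=
  Pool.GRO.cor

/-- Robin's inequality holds for all large `n` with `gcd(n, σ(n)) ≥ n ^ δ`; in particular for all
large multiperfect numbers. -/
theorem robin : ∀ δ : ℝ, 0 < δ → ∃ N : ℕ, ∀ n : ℕ, N ≤ n →
    (n : ℝ) ^ δ ≤ (n.gcd (∑ d ∈ n.divisors, d) : ℕ) →
    (∑ d ∈ n.divisors, (d : ℝ)) < Real.exp Real.eulerMascheroniConstant * n *
      Real.log (Real.log n) :=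
  Pool.GRO.robin

end Pool.Agent.Results.MP_495a89_nt.SecondOrderGronwall
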