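import Mathlib
import Pool.Agent.Work.MP_495a89_v2s.Main

/-!
# MP_495a89_nt: the powerful part of a multiperfect number

For a `k`-fold perfect `n` with large `k` the exponent of `2` in `n` plus the number of the primes
with an even exponent in `n` is at least `(1 - ε) y / log y`, `y = exp (e ^ (-γ) k)`.
-/

set_option autoImplicit false

namespace Pool.Agent.Results.MP_495a89_nt.TwoAdicForm

theorem result : ∀ ε : ℝ, 0 < ε → ∃ K : ℕ, ∀ n k : ℕ, 1 ≤ n →
    ∑ d ∈ n.divisors, d = k * n → K ≤ k →
    (1 - ε) * Real.exp (Real.exp (-Real.eulerMascheroniConstant) * k) /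
        (Real.exp (-Real.eulerMascheroniConstant) * k) ≤
      (n.factorization 2 : ℝ) +
        ((n.primeFactors.filter (fun p => Even (n.factorization p))).card : ℝ) :=
  Pool.V2S.main

end Pool.Agent.Results.MP_495a89_nt.TwoAdicForm
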